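import Pool.Agent.helper70.RK.Spec

/-!
# Row A1U: the regular orbit in the abelian case
-/

set_option autoImplicit false

namespace RK

open QS (Lef EAb)
open LEQ (Stb Nz XS Ls Mb FS mem_FS)

private lemma A1U_abs (A : Type) [AddCommGroup A] (p : ℕ) (hp : ∀ a : A, p • a = 0 → a = 0)
    (c : AddMonoid.End A) (hcp : c ^ p = 1) (y : A) (hy : c y ≠ y) (u : A) (hu : c u = u) :
    ∃ w, c w ≠ w ∧ ∀ d : AddMonoid.End A, d * c = c * d → d (u + w) = u + w → d u = u := by
  set N : AddMonoid.End A := ∑ i ∈ Finset.range p, c ^ i with hN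
  have h1 : c * N = N := by
    have h := mul_geom_sum c p
    rw [hcp, sub_self, sub_mul, one_mul, sub_eq_zero] at h
    exact h
  have hcN : ∀ v, c (N v) = N v := fun v => by
    have h := congrArg (fun f : AddMonoid.End A => f v) h1
    exact h
  have hfix : ∀ v, c v = v → N v = p • v := by
    intro v hv
    have h2 : ∀ i : ℕ, (c ^ i) v = v := by
      intro i
      induction i with
      | zero => rfl
      | succ i ih =>
        rw [pow_succ]
        show (c ^ i) (c v) = v
        rw [hv, ih]
    rw [hN]
    have h3 : (∑ i ∈ Finset.range p, c ^ i : AddMonoid.End A) v =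
        ∑ i ∈ Finset.range p, (c ^ i) v := by
      exact AddMonoidHom.finsetSum_apply _ _ _
    rw [h3, Finset.sum_congr rfl (fun i _ => h2 i), Finset.sum_const, Finset.card_range]
  have hpinj : ∀ a b : A, p • a = p • b → a = b := by
    intro a b hab
    have := hp (a - b) (by rw [smul_sub, hab, sub_self])
    exact sub_eq_zero.1 this
  set w := p • y - N y with hw
  have hNw : N w = 0 := by
    rw [hw, map_sub, map_nsmul, hfix (N y) (hcN y), sub_self]
  have hw0 : w ≠ 0 := by
    intro h0
    rw [hw, sub_eq_zero] at h0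
    have h4 : c (p • y) = p • y := by rw [h0, hcN]
    rw [map_nsmul] at h4
    exact hy (hpinj _ _ h4)
  have hcw : c w ≠ w := by
    intro h0
    have h5 := hfix w h0
    rw [hNw] at h5
    exact hw0 (hp w h5.symm)
  refine ⟨w, hcw, fun d hd hdu => ?_⟩
  have hdN : d * N = N * d := by
    rw [hN, Finset.mul_sum, Finset.sum_mul]
    apply Finset.sum_congr rfl
    intro i _
    exact (Commute.pow_right (show Commute d c from hd) i)
  have h6 : N (u + w) = p • u := by
    rw [map_add, hNw, add_zero, hfix u hu]
  have h7 : d (N (u + w)) = N (d (u + w)) := by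
    have h := congrArg (fun f : AddMonoid.End A => f (u + w)) hdN
    exact h
  rw [hdu, h6, map_nsmul] at h7
  exact hpinj _ _ h7

theorem A1U (hCVM : CVM_stmt) : A1U_stmt := by
  intro G _ _ p hp hO V M hMV hcomm
  classical
  have := hMV.vn
  let instC : CommGroup V :=
    { (inferInstance : Group V) with
      mul_comm := fun a b => Subtype.ext (hcomm a a.2 b b.2) }
  let F : V → ℕ := fun u => {x : G | x ∈ M ∧ x * (u : G) = u * x}.ncard
  obtain ⟨u, hu⟩ := Finite.exists_min F
  refine ⟨u, u.2, fun x hxM hxp hxu => ?_⟩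
  by_contra hx1
  have hnc : ¬ Com V x := fun h => hx1 (hCVM G p hp hO V M hMV x hxM hxp h)
  unfold Com at hnc
  push Not at hnc
  obtain ⟨y, hyV, hyx⟩ := hnc
  -- conjugation
  let e : G → AddMonoid.End (Additive V) := fun g =>
    MonoidHom.toAdditive (MulAut.conjNormal g : MulAut V).toMonoidHom
  have he : ∀ (g : G) (v : V), ((e g (Additive.ofMul v)).toMul : G) = g * v * g⁻¹ := by
    intro g v
    exact MulAut.conjNormal_apply g v
  have hext : ∀ a b : Additive V, ((a.toMul : V) : G) = b.toMul → a = b := by
    intro a b hab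
    exact Additive.toMul.injective (Subtype.ext hab)
  have hemul : ∀ g h : G, e (g * h) = e g * e h := by
    intro g h
    ext v
    show ((MulAut.conjNormal (g * h) v.toMul : V) : G) =
      (MulAut.conjNormal g (MulAut.conjNormal h v.toMul) : V)
    rw [map_mul]
    rfl
  have he1 : e 1 = 1 := by
    ext v
    show ((MulAut.conjNormal (1 : G) v.toMul : V) : G) = v.toMul
    rw [map_one]
    rfl
  have hepow : ∀ (g : G) (k : ℕ), e (g ^ k) = e g ^ k := by
    intro g k
    induction k with
    | zero => rw [pow_zero, pow_zero, he1]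
    | succ k ih => rw [pow_succ, pow_succ, hemul, ih]
  have hefix : ∀ (g : G) (v : V), e g (Additive.ofMul v) = Additive.ofMul v ↔
      g * (v : G) = v * g := by
    intro g v
    constructor
    · intro h
      have h2 := he g v
      rw [h] at h2
      have h3 : (v : G) = g * v * g⁻¹ := h2
      have h4 : (v : G) * g = g * v * g⁻¹ * g := by rw [← h3]
      rw [inv_mul_cancel_right] at h4
      exact h4.symm
    · intro h
      apply hext
      rw [he g v, h, mul_inv_cancel_right]
      rfl
  have hptor : ∀ a : Additive V, p • a = 0 → a = 0 := by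
    intro a ha
    have h2 : (a.toMul : V) ^ p = 1 := ha
    have h3 : orderOf (a.toMul : V) ∣ p := orderOf_dvd_of_pow_eq_one h2
    rcases (Nat.dvd_prime hp).1 h3 with h4 | h4
    · rw [orderOf_eq_one_iff] at h4
      exact Additive.toMul.injective h4
    · exfalso
      apply hMV.vp
      rw [← h4]
      exact orderOf_dvd_natCard _
  obtain ⟨w, hw, hd⟩ := A1U_abs (Additive V) p hptor (e x) (by rw [← hepow, hxp, he1])
    (Additive.ofMul ⟨y, hyV⟩) (by
      intro h
      rw [hefix] at h
      exact hyx h.symm) (Additive.ofMul u) ((hefix x u).2 hxu)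
  have hlt : F (u * w.toMul) < F u := by
    apply Set.ncard_lt_ncard _ (Set.toFinite _)
    constructor
    · rintro m ⟨hm, hmu⟩
      refine ⟨hm, ?_⟩
      rw [← hefix]
      apply hd (e m)
      · -- commutation
        rw [← hemul, ← hemul]
        ext v
        show ((MulAut.conjNormal (m * x) v.toMul : V) : G) =
          (MulAut.conjNormal (x * m) v.toMul : V)
        rw [MulAut.conjNormal_apply, MulAut.conjNormal_apply]
        have hk := hMV.co m hm x hxM
        have hv2 : (x * m) * (v.toMul : G) * (x * m)⁻¹ ∈ V :=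
          hMV.vn.conj_mem v.toMul v.toMul.2 (x * m)
        have h5 := hcomm _ hk _ hv2
        have h6 : m * x * (v.toMul : G) * (m * x)⁻¹ = (m * x * m⁻¹ * x⁻¹) *
            ((x * m) * (v.toMul : G) * (x * m)⁻¹) * (m * x * m⁻¹ * x⁻¹)⁻¹ := by
          group
        rw [h6, h5, mul_inv_cancel_right]
      · exact (hefix m (u * w.toMul)).2 hmu
    · intro hsub
      have h7 := hsub (show x ∈ {x : G | x ∈ M ∧ x * (u : G) = u * x} from ⟨hxM, hxu⟩)
      apply hw
      have h8 : e x (Additive.ofMul (u * w.toMul)) = Additive.ofMul (u * w.toMul) :=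
        (hefix x (u * w.toMul)).2 h7.2
      have h9 : e x (Additive.ofMul u + w) = Additive.ofMul u + w := h8
      rw [map_add, (hefix x u).2 hxu] at h9
      exact add_left_cancel h9
  exact absurd (hu (u * w.toMul)) (not_le.mpr hlt)

end RK
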